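import Pool.Agent.H.MP_605763_gt.B

set_option autoImplicit false

namespace Pool.Agent.Results.MP_605763_gt.Bounds

open Pool.Agent.H.MP_605763_gt

theorem result (n k : ℕ) (hk : k < n) : ∃ N, IsLeast {m | Good n k m} N ∧
    (n + 1).choose 2 ≤ N * (n - k + 1).choose 2 ∧ ∀ q, n ≤ q * (n - k) → N ≤ q ^ 2 := by
  have h : ∀ q, n ≤ q * (n - k) → Good n k (q ^ 2) := fun q hq =>
    goodSq hk.le (Nat.pos_of_ne_zero fun e => by rw [e] at hq; omega) hq
  have hne : {m | Good n k m}.Nonempty := ⟨_, h n (Nat.le_mul_of_pos_right n (by omega))⟩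
  exact ⟨sInf {m | Good n k m}, ⟨Nat.sInf_mem hne, fun _ hm => Nat.sInf_le hm⟩,
    geC (Nat.sInf_mem hne), fun q hq => Nat.sInf_le (h q hq)⟩

end Pool.Agent.Results.MP_605763_gt.Bounds
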