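import Pool.Agent.H.MP_605763_gt.B

set_option autoImplicit false

namespace Pool.Agent.Results.MP_605763_gt.Hyper

open Pool.Agent.H.MP_605763_gt

theorem result (k : ℕ) : IsLeast {m | Good (k + 1) k m} ((k + 2).choose 2) :=
  ⟨goodH, fun _ hm => by simpa using geC hm⟩

end Pool.Agent.Results.MP_605763_gt.Hyper
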