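import Pool.Agent.H.MP_605763_gt.A

set_option autoImplicit false

namespace Pool.Agent.Results.MP_605763_gt.Quadric

open Pool.Agent.H.MP_605763_gt

theorem result (n : ℕ) (ι : Type) [Nonempty ι] (S : ι → Submodule ℝ (EuclideanSpace ℝ (Fin n))) :
    Det S ↔ ∀ Q : QuadraticForm ℝ (EuclideanSpace ℝ (Fin n)),
      (∀ i, ∀ v ∈ (S i)ᗮ, Q v = 0) → Q = 0 := by
  constructor
  · intro h Q hQ
    ext v
    have := lower' h Q.associated (fun i v hv => by
      rw [QuadraticMap.associated_eq_self_apply]; exact hQ i v hv) v
    rwa [QuadraticMap.associated_eq_self_apply] at this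
  · intro h
    refine upper S fun B hB v => ?_
    have := h (LinearMap.BilinMap.toQuadraticMap B) hB
    exact DFunLike.congr_fun this v

end Pool.Agent.Results.MP_605763_gt.Quadric
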