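import Pool.Agent.H.MP_605763_gt.B

set_option autoImplicit false

namespace Pool.Agent.Results.MP_605763_gt.Small

open Pool.Agent.H.MP_605763_gt

theorem result (n k : ℕ) (hk : 1 ≤ k) (hn : 2 * k ≤ n) :
    IsLeast {m | Good n k m} (if 3 * k ≤ n + 1 then 3 else 4) := by
  split_ifs with h
  · exact ⟨good3 hk h, fun _ hm => ge3 hm hk (by omega)⟩
  · exact ⟨good4 hn, fun _ hm => ge4 hm hk (by omega) (by omega)⟩

end Pool.Agent.Results.MP_605763_gt.Small
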